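import Pool.Agent.Q68.GW.Main
open Complex
namespace Pool.Agent.Results.MP_e36abb_an.AperiodicWalk

/-- `z n` is the point `z_{n-1}` of the problem (so `z 0` is the starting point `z_{-1}`) and `ε n`
is the sign `ε_n`: at every step the chosen sign gives the strictly smaller absolute value, so no
tie ever occurs. -/
def IsGreedyWalk (α : ℝ) (z : ℕ → ℂ) (ε : ℕ → ℤ) : Prop :=
  ∀ n : ℕ, (ε n = 1 ∨ ε n = -1) ∧
    z (n + 1) = z n + ε n * exp (2 * Real.pi * I * α * n) ∧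
    ‖z n + ε n * exp (2 * Real.pi * I * α * n)‖ < ‖z n - ε n * exp (2 * Real.pi * I * α * n)‖

/-- Eventual periodicity of the signs. -/
def EventuallyPeriodic (ε : ℕ → ℤ) : Prop := ∃ N p : ℕ, 1 ≤ p ∧ ∀ n, N ≤ n → ε (n + p) = ε n

/-- **Theorem.** For `α = arccos (1/3) / (2π)`, which is irrational, there is an admissible starting
point whose sign sequence is not eventually periodic. -/
theorem result : ∃ α : ℝ, α = Real.arccos (1 / 3) / (2 * Real.pi) ∧ 0 < α ∧ Irrational α ∧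
    ∃ (z : ℕ → ℂ) (ε : ℕ → ℤ), IsGreedyWalk α z ε ∧ ¬ EventuallyPeriodic ε := by
  obtain ⟨u, hu, hper⟩ := Q68.GW.exists_aperiodic
  have hwb : ∀ n : ℕ, exp (2 * Real.pi * I * (Q68.GW.al : ℝ) * n) = Q68.GW.wb ^ n := by
    intro n
    rw [Q68.GW.wb_pow]
    congr 1
    unfold Q68.GW.al
    push_cast
    have : (Real.pi : ℂ) ≠ 0 := by exact_mod_cast Real.pi_ne_zero
    field_simp
  obtain ⟨σ, hσ⟩ : ∃ σ : ℂ → ℤ, ∀ v, (σ v : ℝ) = -Q68.GW.sg v ∧ (σ v = 1 ∨ σ v = -1) := by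
    refine ⟨fun v => if 0 < v.re then -1 else 1, fun v => ?_⟩
    unfold Q68.GW.sg
    by_cases h : 0 < v.re <;> simp [h]
  refine ⟨Q68.GW.al, rfl, Q68.GW.al_pos, Q68.GW.al_irr,
    fun n => Q68.GW.T^[n] u * Q68.GW.wb ^ n, fun n => σ (Q68.GW.T^[n] u), ?_, ?_⟩
  · intro n
    obtain ⟨v, hv⟩ : ∃ v, v = Q68.GW.T^[n] u := ⟨_, rfl⟩
    have hvre : v.re ≠ 0 := by rw [hv]; exact hu n
    obtain ⟨h1, h2⟩ := hσ v
    have h1' : ((σ v : ℤ) : ℂ) = -(Q68.GW.sg v : ℂ) := by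
      have : (((σ v : ℤ) : ℝ) : ℂ) = ((-Q68.GW.sg v : ℝ) : ℂ) := by rw [h1]
      push_cast at this
      exact this
    simp only
    rw [hwb, ← hv]
    refine ⟨h2, ?_, ?_⟩
    · rw [Function.iterate_succ_apply', ← hv, h1', pow_succ]
      show Q68.GW.w * (v - Q68.GW.sg v) * (Q68.GW.wb ^ n * Q68.GW.wb) = _
      linear_combination ((v - Q68.GW.sg v) * Q68.GW.wb ^ n) * Q68.GW.w_wb
    · have e1 : v * Q68.GW.wb ^ n + σ v * Q68.GW.wb ^ n = (v - Q68.GW.sg v) * Q68.GW.wb ^ n := by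
        rw [h1']; ring
      have e2 : v * Q68.GW.wb ^ n - σ v * Q68.GW.wb ^ n = (v + Q68.GW.sg v) * Q68.GW.wb ^ n := by
        rw [h1']; ring
      rw [e1, e2, norm_mul, norm_mul, norm_pow, Q68.GW.norm_wb, one_pow, mul_one, mul_one]
      rw [← sq_lt_sq₀ (norm_nonneg _) (norm_nonneg _), Complex.sq_norm, Complex.sq_norm,
        normSq_apply, normSq_apply]
      have h3 := Q68.GW.sg_pos hvre
      simp only [sub_re, sub_im, add_re, add_im, ofReal_re, ofReal_im]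
      nlinarith
  · rintro ⟨N, p, hp, h⟩
    refine hper ⟨N, p, hp, fun n hn => ?_⟩
    have h1 := h n hn
    have h2 := (hσ (Q68.GW.T^[n + p] u)).1
    have h3 := (hσ (Q68.GW.T^[n] u)).1
    simp only at h1
    rw [h1, h3] at h2
    linarith

end Pool.Agent.Results.MP_e36abb_an.AperiodicWalk
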